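import Pool.Agent.V11106.PI.Abs

/-!
# A bounded set in the hyperbolic plane with a free group of piecewise isometries without fixed points
-/

namespace Pool.Agent.Results.MP_e721cf_gt.PuncturedDisc

open UpperHalfPlane Pool.Agent.V11106.PI

/-- `f` is a piecewise isometry of `X`: for a partition of `X` into finitely many pieces `P i` (some
of them may be empty), `f` is the restriction of an isometry `g i` of the hyperbolic plane on each
piece `P i`. -/
def IsPiecewiseIsometry (X : Set ℍ) (f : X ≃ X) : Prop :=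
  ∃ (n : ℕ) (P : Fin n → Set X) (g : Fin n → (ℍ ≃ᵢ ℍ)),
    (∀ i j, i ≠ j → Disjoint (P i) (P j)) ∧ (⋃ i, P i) = Set.univ ∧
    ∀ i, ∀ x ∈ P i, (f x : ℍ) = g i (x : ℍ)

/-- `φ` and `ψ` freely generate a free group of rank two: no element of the free group except the
identity is mapped to the identity. -/
def Independent {X : Set ℍ} (φ ψ : Equiv.Perm X) : Prop :=
  ∀ w : FreeGroup (Fin 2), FreeGroup.lift ![φ, ψ] w = 1 → w = 1

/-- No element of the group generated by `φ` and `ψ` except the identity has a fixed point. -/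
def WithoutFixedPoints {X : Set ℍ} (φ ψ : Equiv.Perm X) : Prop :=
  ∀ g ∈ Subgroup.closure ({φ, ψ} : Set (Equiv.Perm X)), ∀ x : X, g x = x → g = 1

theorem piecewise_of {X : Set ℍ} {ι : Type} [Fintype ι] (f : X ≃ X) (s : ι → (ℍ ≃ᵢ ℍ))
    (h : ∀ x : X, ∃ k, (f x : ℍ) = s k (x : ℍ)) : IsPiecewiseIsometry X f := by
  classical
  choose c hc using h
  let e := Fintype.equivFin ι
  refine ⟨Fintype.card ι, fun i => {x | e (c x) = i}, fun i => s (e.symm i), ?_, ?_, ?_⟩
  · intro i j hij
    rw [Set.disjoint_left]
    intro x hx hx'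
    exact hij (hx.symm.trans hx')
  · ext x
    simp
  · intro i x hx
    have hx' : e (c x) = i := hx
    show (f x : ℍ) = s (e.symm i) (x : ℍ)
    rw [← hx', Equiv.symm_apply_apply]
    exact hc x

/-- There is a bounded set with nonempty interior in the hyperbolic plane that carries two
independent piecewise isometries such that the group generated by them acts without nontrivial fixed
points. -/
theorem result : ∃ X : Set ℍ, Bornology.IsBounded X ∧ (interior X).Nonempty ∧
    ∃ φ ψ : Equiv.Perm X, IsPiecewiseIsometry X φ ∧ IsPiecewiseIsometry X ψ ∧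
      Independent φ ψ ∧ WithoutFixedPoints φ ψ := by
  obtain ⟨A, hA, s, hs⟩ := exists_action_Xs
  have hlift : FreeGroup.lift ![A (FreeGroup.of 0), A (FreeGroup.of 1)] = A := by
    apply FreeGroup.ext_hom
    intro a
    fin_cases a <;> simp
  have hne : Nonempty Xs := by
    obtain ⟨z, hz⟩ := Xs_interior
    exact ⟨⟨z, interior_subset hz⟩⟩
  refine ⟨Xs, Xs_bounded, Xs_interior, A (FreeGroup.of 0), A (FreeGroup.of 1), ?_, ?_, ?_, ?_⟩
  · exact piecewise_of _ (fun k => iso (s k)) (fun x => hs 0 x)
  · exact piecewise_of _ (fun k => iso (s k)) (fun x => hs 1 x)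
  · intro w hw
    rw [hlift] at hw
    obtain ⟨x⟩ := hne
    exact hA w x (by rw [hw]; rfl)
  · intro g hg x hx
    have h1 : Subgroup.closure ({A (FreeGroup.of 0), A (FreeGroup.of 1)} : Set (Equiv.Perm Xs)) ≤
        A.range := by
      rw [Subgroup.closure_le]
      rintro y (rfl | rfl)
      · exact ⟨_, rfl⟩
      · exact ⟨_, rfl⟩
    obtain ⟨w, rfl⟩ := h1 hg
    have := hA w x hx
    rw [this, map_one]

end Pool.Agent.Results.MP_e721cf_gt.PuncturedDisc
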